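import Pool.Agent.W743.HP.Stm

/-!
Project HP, part DIFF: `FF` is continuously differentiable, with derivative `DF`.
-/

set_option autoImplicit false

open Set Filter Topology

namespace Pool.Agent.W168.HP

section abs

variable {A B : Type} [NormedAddCommGroup A] [NormedSpace ℝ A] [NormedAddCommGroup B]
  [NormedSpace ℝ B]

theorem hd_bilin {A B C : Type} [NormedAddCommGroup A] [NormedSpace ℝ A] [NormedAddCommGroup B]
    [NormedSpace ℝ B] [NormedAddCommGroup C] [NormedSpace ℝ C] (L : A →L[ℝ] B →L[ℝ] C)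
    {f : ℝ → A} {g : ℝ → B} {f' : A} {g' : B} {t : ℝ} (hf : HasDerivAt f f' t)
    (hg : HasDerivAt g g' t) :
    HasDerivAt (fun s => L (f s) (g s)) (L f' (g t) + L (f t) g') t :=
  HasDerivAt.clm_apply (c := fun s => L (f s)) (L.hasFDerivAt.comp_hasDerivAt t hf) hg

theorem hd_lin {A B : Type} [NormedAddCommGroup A] [NormedSpace ℝ A] [NormedAddCommGroup B]
    [NormedSpace ℝ B] (L : A →L[ℝ] B) {f : ℝ → A} {f' : A} {t : ℝ} (hf : HasDerivAt f f' t) :
    HasDerivAt (fun s => L (f s)) (L f') t :=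
  L.hasFDerivAt.comp_hasDerivAt t hf

theorem cd_bilin {A B C Z : Type} [NormedAddCommGroup A] [NormedSpace ℝ A] [NormedAddCommGroup B]
    [NormedSpace ℝ B] [NormedAddCommGroup C] [NormedSpace ℝ C] [NormedAddCommGroup Z]
    [NormedSpace ℝ Z] (L : A →L[ℝ] B →L[ℝ] C)
    {f : Z → A} {g : Z → B} (hf : ContDiff ℝ 1 f) (hg : ContDiff ℝ 1 g) :
    ContDiff ℝ 1 (fun s => L (f s) (g s)) :=
  (L.contDiff.comp hf).clm_apply hg

theorem cd_lin {A B Z : Type} [NormedAddCommGroup A] [NormedSpace ℝ A] [NormedAddCommGroup B]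
    [NormedSpace ℝ B] [NormedAddCommGroup Z] [NormedSpace ℝ Z] (L : A →L[ℝ] B)
    {f : Z → A} (hf : ContDiff ℝ 1 f) : ContDiff ℝ 1 (fun s => L (f s)) :=
  L.contDiff.comp hf

variable (mul : B →L[ℝ] B →L[ℝ] B) (R T : B →L[ℝ] B) (N : B →L[ℝ] A) (D : A →L[ℝ] A →L[ℝ] B)
  (S P : A →L[ℝ] A) (e0 e1 : A) (u0 u1 : B) (c0 c1 : A →L[ℝ] ℝ)

/-- abstract version of `ph` -/
noncomputable def aph (ε : ℝ) (q : A) : A := e0 + ε • e1 + P q
/-- abstract version of `XX` -/
noncomputable def aXX (p : A) : B := R (D (S p) (S p))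
/-- abstract version of `UU` -/
noncomputable def aUU (x : A × B) : B := u0 + T x.2 + c1 x.1 • u1
/-- abstract version of `dph` -/
noncomputable def adph (η : ℝ) (q : A) : A := η • e1 + P q
/-- abstract version of `dXX` -/
noncomputable def adXX (p p' : A) : B := R (D (S p) (S p') + D (S p') (S p))

/-- abstract version of `FF` -/
noncomputable def aFF (α ε : ℝ) (x : A × B) : A × B :=
  (N x.2,
    x.2 - (2 * c0 x.1) • mul (aXX R D S (aph P e0 e1 ε x.1)) x.2 +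
      (c0 x.1 ^ 2) • mul (aXX R D S (aph P e0 e1 ε x.1))
        (mul (aXX R D S (aph P e0 e1 ε x.1)) x.2) -
      (α * c0 x.1) • mul (D (aph P e0 e1 ε x.1) (aph P e0 e1 ε x.1)) (aUU T u0 u1 c1 x))

/-- abstract version of `DF` -/
noncomputable def aDF (α ε : ℝ) (x : A × B) (η : ℝ) (v : A × B) : A × B :=
  (N v.2,
    v.2 - (2 * c0 v.1) • mul (aXX R D S (aph P e0 e1 ε x.1)) x.2 -
      (2 * c0 x.1) • (mul (adXX R D S (aph P e0 e1 ε x.1) (adph P e1 η v.1)) x.2 +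
        mul (aXX R D S (aph P e0 e1 ε x.1)) v.2) +
      (2 * c0 x.1 * c0 v.1) • mul (aXX R D S (aph P e0 e1 ε x.1))
        (mul (aXX R D S (aph P e0 e1 ε x.1)) x.2) +
      (c0 x.1 ^ 2) • (mul (adXX R D S (aph P e0 e1 ε x.1) (adph P e1 η v.1))
          (mul (aXX R D S (aph P e0 e1 ε x.1)) x.2) +
        mul (aXX R D S (aph P e0 e1 ε x.1))
          (mul (adXX R D S (aph P e0 e1 ε x.1) (adph P e1 η v.1)) x.2) +
        mul (aXX R D S (aph P e0 e1 ε x.1)) (mul (aXX R D S (aph P e0 e1 ε x.1)) v.2)) -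
      (α * c0 v.1) • mul (D (aph P e0 e1 ε x.1) (aph P e0 e1 ε x.1)) (aUU T u0 u1 c1 x) -
      (α * c0 x.1) • (mul (D (aph P e0 e1 ε x.1) (adph P e1 η v.1) +
          D (adph P e1 η v.1) (aph P e0 e1 ε x.1)) (aUU T u0 u1 c1 x) +
        mul (D (aph P e0 e1 ε x.1) (aph P e0 e1 ε x.1)) (T v.2 + c1 v.1 • u1)))

theorem aFF_contDiff :
    ContDiff ℝ 1 (fun z : ℝ × ℝ × (A × B) =>
      aFF mul R T N D S P e0 e1 u0 u1 c0 c1 z.1 z.2.1 z.2.2) := by
  have h1 : ContDiff ℝ 1 (fun z : ℝ × ℝ × (A × B) => z.1) := contDiff_fst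
  have h2 : ContDiff ℝ 1 (fun z : ℝ × ℝ × (A × B) => z.2.1) := contDiff_fst.comp contDiff_snd
  have h3 : ContDiff ℝ 1 (fun z : ℝ × ℝ × (A × B) => z.2.2.1) :=
    contDiff_fst.comp (contDiff_snd.comp contDiff_snd)
  have h4 : ContDiff ℝ 1 (fun z : ℝ × ℝ × (A × B) => z.2.2.2) :=
    contDiff_snd.comp (contDiff_snd.comp contDiff_snd)
  have hc0 : ContDiff ℝ 1 (fun z : ℝ × ℝ × (A × B) => c0 z.2.2.1) := cd_lin c0 h3
  have hc1 : ContDiff ℝ 1 (fun z : ℝ × ℝ × (A × B) => c1 z.2.2.1) := cd_lin c1 h3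
  have hph : ContDiff ℝ 1 (fun z : ℝ × ℝ × (A × B) => aph P e0 e1 z.2.1 z.2.2.1) := by
    unfold aph
    exact (contDiff_const.add (h2.smul contDiff_const)).add (cd_lin P h3)
  have hXX : ContDiff ℝ 1 (fun z : ℝ × ℝ × (A × B) =>
      aXX R D S (aph P e0 e1 z.2.1 z.2.2.1)) := by
    unfold aXX
    exact cd_lin R (cd_bilin D (cd_lin S hph) (cd_lin S hph))
  have hUU : ContDiff ℝ 1 (fun z : ℝ × ℝ × (A × B) => aUU T u0 u1 c1 z.2.2) := by
    unfold aUU
    exact (contDiff_const.add (cd_lin T h4)).add (hc1.smul contDiff_const)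
  unfold aFF
  refine ContDiff.prodMk (cd_lin N h4) ?_
  exact ((h4.sub ((contDiff_const.mul hc0).smul (cd_bilin mul hXX h4))).add
    ((hc0.pow 2).smul (cd_bilin mul hXX (cd_bilin mul hXX h4)))).sub
    ((h1.mul hc0).smul (cd_bilin mul (cd_bilin D hph hph) hUU))

theorem aFF_line (α ε : ℝ) (x : A × B) (η : ℝ) (v : A × B) :
    HasDerivAt (fun t : ℝ => aFF mul R T N D S P e0 e1 u0 u1 c0 c1 α (ε + t * η) (x + t • v))
      (aDF mul R T N D S P e0 e1 u0 u1 c0 c1 α ε x η v) 0 := by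
  have hx1 : HasDerivAt (fun t : ℝ => (x + t • v).1) v.1 0 := by
    have : HasDerivAt (fun t : ℝ => x.1 + t • v.1) ((1 : ℝ) • v.1) 0 :=
      ((hasDerivAt_id (0 : ℝ)).smul_const v.1).const_add x.1
    rw [one_smul] at this
    exact this
  have hx2 : HasDerivAt (fun t : ℝ => (x + t • v).2) v.2 0 := by
    have : HasDerivAt (fun t : ℝ => x.2 + t • v.2) ((1 : ℝ) • v.2) 0 :=
      ((hasDerivAt_id (0 : ℝ)).smul_const v.2).const_add x.2
    rw [one_smul] at this
    exact this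
  have he : HasDerivAt (fun t : ℝ => ε + t * η) η 0 := by
    have : HasDerivAt (fun t : ℝ => ε + t * η) (1 * η) 0 :=
      ((hasDerivAt_id (0 : ℝ)).mul_const η).const_add ε
    rwa [one_mul] at this
  have hph : HasDerivAt (fun t : ℝ => aph P e0 e1 (ε + t * η) (x + t • v).1)
      (adph P e1 η v.1) 0 := by
    unfold aph adph
    exact ((he.smul_const e1).const_add e0).add (hd_lin P hx1)
  have hXX : HasDerivAt (fun t : ℝ => aXX R D S (aph P e0 e1 (ε + t * η) (x + t • v).1))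
      (adXX R D S (aph P e0 e1 ε x.1) (adph P e1 η v.1)) 0 := by
    unfold aXX adXX
    have := hd_lin R (hd_bilin D (hd_lin S hph) (hd_lin S hph))
    rw [zero_mul, zero_smul, add_zero, add_zero] at this
    rw [add_comm]
    exact this
  have hUU : HasDerivAt (fun t : ℝ => aUU T u0 u1 c1 (x + t • v)) (T v.2 + c1 v.1 • u1) 0 := by
    unfold aUU
    exact ((hd_lin T hx2).const_add u0).add ((hd_lin c1 hx1).smul_const u1)
  have hc0 : HasDerivAt (fun t : ℝ => c0 (x + t • v).1) (c0 v.1) 0 := hd_lin c0 hx1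
  unfold aFF
  have hA := (hc0.const_mul 2).smul (hd_bilin mul hXX hx2)
  have hB := (hc0.pow 2).smul (hd_bilin mul hXX (hd_bilin mul hXX hx2))
  have hC := (hc0.const_mul α).smul (hd_bilin mul (hd_bilin D hph hph) hUU)
  have h := (hd_lin N hx2).prodMk (((hx2.sub hA).add hB).sub hC)
  refine h.congr_deriv ?_
  unfold aDF
  simp only [Pi.pow_apply, zero_mul, zero_smul, add_zero]
  refine Prod.ext rfl ?_
  simp only [map_add, add_apply]
  module

theorem aFF_fderiv (α ε : ℝ) (x : A × B) (η : ℝ) (v : A × B) :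
    fderiv ℝ (fun z : ℝ × ℝ × (A × B) =>
      aFF mul R T N D S P e0 e1 u0 u1 c0 c1 z.1 z.2.1 z.2.2) (α, ε, x) (0, η, v) =
      aDF mul R T N D S P e0 e1 u0 u1 c0 c1 α ε x η v := by
  have h1 := ((aFF_contDiff mul R T N D S P e0 e1 u0 u1 c0 c1).differentiable one_ne_zero
    (α, ε, x)).hasFDerivAt
  have h2 : HasDerivAt (fun t : ℝ => ((α, ε, x) : ℝ × ℝ × (A × B)) + t • (0, η, v)) (0, η, v) 0 := by
    have := ((hasDerivAt_id (0 : ℝ)).smul_const ((0, η, v) : ℝ × ℝ × (A × B))).const_add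
      ((α, ε, x) : ℝ × ℝ × (A × B))
    rw [one_smul] at this
    exact this
  have h3 : (fun t : ℝ => ((α, ε, x) : ℝ × ℝ × (A × B)) + t • (0, η, v)) 0 = (α, ε, x) := by
    simp
  rw [← h3] at h1
  have h4 := h1.comp_hasDerivAt (0 : ℝ) h2
  rw [h3] at h4
  refine h4.unique ?_
  refine (aFF_line mul R T N D S P e0 e1 u0 u1 c0 c1 α ε x η v).congr_of_eventuallyEq ?_
  refine Filter.Eventually.of_forall fun t => ?_
  simp [smul_eq_mul]

end abs

open Pool.Agent.W743.HP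

/-- The coordinate `n`. -/
noncomputable def co (n : ℕ) : Q →L[ℝ] ℝ :=
  lift (fun i => if i = n then (1 : ℝ) else 0) 1 fun i => by
    split
    · simp
    · simp

theorem co_apply (n : ℕ) (q : Q) : co n q = q n := by
  unfold co
  rw [lift_apply, tsum_eq_single n]
  · simp
  · intro i hi
    simp [hi]

theorem FF_eq (α ε : ℝ) (x : Q × E) :
    FF α ε x = aFF mulE RR TT NN BB SS PP (ue 0) (ue 1) (ue (0, 0)) (ue (1, 0)) (co 0) (co 1)
      α ε x := by
  unfold FF aFF UU aUU XX aXX ph aph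
  rw [co_apply, co_apply]

theorem DF_eq (α ε : ℝ) (x : Q × E) (η : ℝ) (v : Q × E) :
    DF α ε x η v = aDF mulE RR TT NN BB SS PP (ue 0) (ue 1) (ue (0, 0)) (ue (1, 0)) (co 0) (co 1)
      α ε x η v := by
  unfold DF aDF UU aUU XX aXX dXX adXX ph aph dph adph
  simp only [co_apply]

theorem diff : S_DIFF := by
  have h : (fun z : ℝ × ℝ × (Q × E) => FF z.1 z.2.1 z.2.2) = fun z =>
      aFF mulE RR TT NN BB SS PP (ue 0) (ue 1) (ue (0, 0)) (ue (1, 0)) (co 0) (co 1)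
        z.1 z.2.1 z.2.2 := by
    funext z
    exact FF_eq _ _ _
  refine ⟨?_, fun α ε x η v => ?_⟩
  · rw [h]
    exact aFF_contDiff _ _ _ _ _ _ _ _ _ _ _ _ _
  · rw [h, DF_eq]
    exact aFF_fderiv _ _ _ _ _ _ _ _ _ _ _ _ _ _ _ _ _ _

end Pool.Agent.W168.HP
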