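import Pool.Agent.W743.HP.Stm

/-!
Project HP, part SOL: the classical solution.
-/

set_option autoImplicit false

open Set Filter Topology

namespace Pool.Agent.W168.HP

open Pool.Agent.W743.HP

theorem ue_apply {ι : Type} [DecidableEq ι] (i j : ι) :
    (ue i : L1 ι) j = if j = i then 1 else 0 := by
  unfold ue
  by_cases h : j = i
  · subst h
    simp
  · rw [if_neg h]
    exact lp.single_apply_ne 1 i 1 h

/-- The coordinate `n`. -/
noncomputable def coQ (n : ℕ) : Q →L[ℝ] ℝ :=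
  lift (fun i => if i = n then (1 : ℝ) else 0) 1 fun i => by
    split
    · simp
    · simp

theorem coQ_apply (n : ℕ) (q : Q) : coQ n q = q n := by
  unfold coQ
  rw [lift_apply, tsum_eq_single n]
  · simp
  · intro i hi
    simp [hi]

theorem PP_one (q : Q) : (PP q) 1 = 0 := by
  have h : (coQ 1).comp PP = 0 := by
    refine L1.ext_ue fun i => ?_
    rw [ContinuousLinearMap.comp_apply]
    unfold PP
    rw [lift_ue]
    split
    · simp
    · next h =>
      rw [coQ_apply, ue_apply, if_neg (by omega)]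
      rfl
  have h2 := congrArg (fun L : Q →L[ℝ] ℝ => L q) h
  simp only [ContinuousLinearMap.comp_apply, coQ_apply] at h2
  exact h2

theorem ph_one (ε : ℝ) (q : Q) : (ph ε q) 1 = ε := by
  unfold ph
  rw [lp.coeFn_add, Pi.add_apply, lp.coeFn_add, Pi.add_apply, lp.coeFn_smul, Pi.smul_apply,
    PP_one, ue_apply, ue_apply]
  simp

theorem sol : S_EX → S_EV → S_LAPL → S_BDV → S_FH → S_SOL := by
  rintro ⟨α, ε, x, hα, hε, hp, hq1, hq2, hx1, hF⟩ hEV hLAPL hBDV hFH
  set p : Q := ph ε x.1 with hpdef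
  set t : ℝ := Real.sqrt (x.1 0) with ht
  have hq0 : 0 ≤ x.1 0 := by linarith
  have ht2 : t ^ 2 = x.1 0 := Real.sq_sqrt hq0
  have ht0 : 0 ≤ t := Real.sqrt_nonneg _
  have ht45 : 4 / 5 < t := by
    by_contra h
    push Not at h
    nlinarith
  have ht91 : t < 9 / 10 := by
    by_contra h
    push Not at h
    nlinarith
  have hF1 : NN x.2 = 0 := congrArg Prod.fst hF
  have hF2 : x.2 - (2 * x.1 0) • mulE (XX p) x.2 + (x.1 0 ^ 2) • mulE (XX p) (mulE (XX p) x.2) -
      (α * x.1 0) • mulE (BB p p) (UU x) = 0 := congrArg Prod.snd hF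
  have hUU : UU x = ue (0, 0) + TT x.2 := by
    unfold UU
    rw [hx1, zero_smul, add_zero]
  obtain ⟨g1, g2, g3, g4, g5⟩ := hFH p t
  obtain ⟨l1, l2⟩ := hLAPL x.2
  have hb := hBDV x.2 hF1
  refine ⟨α, fun z => t * z * evQ z (SS p), fun z => evE z (ue (0, 0) + TT x.2), ?_⟩
  refine ⟨by linarith, g1, by simp, g3, ⟨t, ht45, ht91, ?_⟩, ?_, l1, ?_, hb⟩
  · intro z hz
    rw [g2 z hz]
    have hz1 : ‖z‖ ≤ 1 := by
      rw [mem_ball_zero_iff] at hz
      exact hz.le
    have h1 : evQ z (ue 0) = 1 := (hEV z hz1).2.2.2.2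
    have h2 : (t : ℂ) * evQ z p - t = t * evQ z (p - ue 0) := by
      rw [map_sub, h1]
      ring
    rw [h2, norm_mul, Complex.norm_real, Real.norm_eq_abs, abs_of_nonneg ht0]
    have h3 : ‖evQ z (p - ue 0)‖ ≤ 1 / 20 := by
      obtain ⟨_, _, _, _, h5⟩ := hFH (p - ue 0) t
      exact (h5 z).trans hp
    nlinarith
  · refine g4 (by linarith) ?_
    rw [hpdef, ph_one]
    exact hε
  · intro z hz
    have hz1 : ‖z‖ ≤ 1 := by
      rw [mem_ball_zero_iff] at hz
      exact hz.le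
    obtain ⟨e1, e2, e3, e4, e5⟩ := hEV z hz1
    have hsq : ∀ r : Q, evE z (BB r r) = ‖evQ z r‖ ^ 2 := by
      intro r
      rw [e2, Complex.mul_conj, Complex.normSq_eq_norm_sq, Complex.ofReal_re]
    have hXX : evE z (XX p) = ‖z‖ ^ 2 * ‖evQ z (SS p)‖ ^ 2 := by
      unfold XX
      rw [e3, hsq]
    have key := congrArg (evE z) hF2
    rw [map_sub, map_add, map_sub, map_smul, map_smul, map_smul, e1, e1, e1, e1, hsq, hUU, hXX,
      map_zero] at key
    simp only [smul_eq_mul] at key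
    rw [l2 z hz, g2 z hz]
    have n1 : ‖(t : ℂ) * z * evQ z (SS p)‖ ^ 2 = x.1 0 * (‖z‖ ^ 2 * ‖evQ z (SS p)‖ ^ 2) := by
      rw [norm_mul, norm_mul, Complex.norm_real, Real.norm_eq_abs, abs_of_nonneg ht0, ← ht2]
      ring
    have n2 : ‖(t : ℂ) * evQ z p‖ ^ 2 = x.1 0 * ‖evQ z p‖ ^ 2 := by
      rw [norm_mul, Complex.norm_real, Real.norm_eq_abs, abs_of_nonneg ht0, ← ht2]
      ring
    rw [n1, n2]
    linear_combination (-4) * key

end Pool.Agent.W168.HP
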